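import Pool.Agent.Helper45.L.Defs
import Pool.Agent.Helper13.HG2.RatioP
import Pool.Agent.Helper5.HG.BTL

/-!
# Project L: the assembly
-/

set_option autoImplicit false

namespace Pool.Agent.L

open NumberField IsDedekindDomain Pool.Agent.Helper91.Sect
open Pool.Agent.HG (Pr nm IsOdd)

noncomputable section

/-- no rational branch point: the places `P` of `K0` at which `h` has odd valuation do not have
residue field `k` -/
def NoRatBranch (k : Type) {K0 : Type} [Field k] [Field K0] [Algebra k K0] (h : K0) : Prop :=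
  ∀ P : ValuationSubring K0, (∀ a : k, algebraMap k K0 a ∈ P) →
    (∀ z : K0, P.valuation h ≠ P.valuation z ^ 2) →
    ∃ x ∈ P, ∀ a : k, x - algebraMap k K0 a ∉ P.nonunits

/-- The final theorem of project L. -/
def StmtFinL : Prop :=
  ∀ (k K0 : Type) [Field k] [NumberField k] [Field K0] [Algebra k K0] (h : K0), GoodCurve k h →
    (((∃ x : K0, IntermediateField.adjoin k {x} = ⊤) ∧ NoRatBranch k h) ∨
      ∃ σ : AlgebraicClosure k ≃ₐ[k] AlgebraicClosure k, ¬ FixesBranch h σ) →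
    ∃ η C : ℝ, 0 < η ∧ 0 < C ∧ ∀ X : ℕ, 3 ≤ X → ∀ T : Finset k,
      (∀ c ∈ T, ∀ c' ∈ T, (∃ d : k, c = c' * d ^ 2) → c = c') →
      (∀ c ∈ T, c ≠ 0 ∧ Pool.Agent.HG.cond c ≤ X ∧ HasSec h c) →
      (T.card : ℝ) ≤ C * X / Real.log X ^ η

theorem finL (hLOC : StmtLOC) (hDEN : StmtDEN) (hCT : StmtCT) (hP1 : StmtP1)
    (hR : Pool.Agent.HG.StmtFinalR) : StmtFinL := by
  classical
  intro k K0 _ _ _ _ h hG hcase
  rcases hcase with ⟨hx, hbr⟩ | ⟨σ, hσ⟩
  · obtain ⟨f, h1, h2, h3, h4, h5⟩ := hP1 k K0 h hG hx hbr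
    obtain ⟨η, C, hη, hC, hT⟩ := hR k f h1 h2 h3 h4
    exact ⟨η, C, hη, hC, fun X hX T hT1 hT2 => hT X hX T hT1 fun c hc =>
      ⟨(hT2 c hc).1, (hT2 c hc).2.1, h5 c (hT2 c hc).2.2⟩⟩
  · obtain ⟨Bad, hBad, hloc⟩ := hLOC k K0 h hG
    obtain ⟨B, hB⟩ := Pool.Agent.HG.exists_B5 k
    obtain ⟨δ, C, Q, hδ, hQ, hsum⟩ := hDEN k K0 h hG σ hσ B hB
    obtain ⟨η, C', hη, hT⟩ := hCT k B hB δ C Q Bad hBad hδ hsum
    refine ⟨η, |C'| + 1, hη, by positivity, fun X hX T hT1 hT2 => ?_⟩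
    have h1 := hT X hX T hT1 (fun c hc => by
      obtain ⟨g1, g2, g3⟩ := hT2 c hc
      refine ⟨g1, g2, fun v hv hvB hodd => ?_⟩
      obtain ⟨O, F, p, f, hD, hF⟩ := hloc v hvB c g1 hodd g3
      exact hQ v hv O F p f hD hF)
    refine h1.trans ?_
    have hlog : 0 ≤ Real.log X := Real.log_natCast_nonneg X
    have h2 : (0 : ℝ) ≤ X := Nat.cast_nonneg X
    refine div_le_div_of_nonneg_right ?_ (Real.rpow_nonneg hlog η)
    exact mul_le_mul_of_nonneg_right (by linarith [le_abs_self C']) h2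

end

end Pool.Agent.L

namespace Pool.Agent.HG

open NumberField IsDedekindDomain

/-- the ratio of classes, with a rate, for an arbitrary property -/
theorem ratioRP (hSel : StmtSel) (k : Type) [Field k] [NumberField k] (P : k → Prop)
    (h : ∃ η C : ℝ, 0 < η ∧ 0 < C ∧ ∀ X : ℕ, 3 ≤ X → ∀ T : Finset k,
      (∀ c ∈ T, ∀ c' ∈ T, (∃ d : k, c = c' * d ^ 2) → c = c') →
      (∀ c ∈ T, c ≠ 0 ∧ cond c ≤ X ∧ P c) → (T.card : ℝ) ≤ C * X / Real.log X ^ η) :
    (∀ X : ℕ, (clsLE k X).Finite) ∧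
    ∃ η C : ℝ, 0 < η ∧ 0 < C ∧ ∀ X : ℕ, 3 ≤ X →
      (Nat.card (clsP P X) : ℝ) ≤ C * Nat.card (clsLE k X) / Real.log X ^ η := by
  classical
  have hfin : ∀ X, (clsLE k X).Finite := clsLE_finite hSel
  refine ⟨hfin, ?_⟩
  obtain ⟨δ, hδ, hlow⟩ := clsLE_card_ge (k := k) hSel
  have hfin' : ∀ X, (clsP P X).Finite := fun X => (hfin X).subset fun C hC => by
    obtain ⟨c, h1, h2, -⟩ := hC
    exact ⟨c, h1, h2⟩
  obtain ⟨η, C₀, hη, hC₀, hFn⟩ := h
  refine ⟨η, C₀ / δ, hη, div_pos hC₀ hδ, fun X hX3 => ?_⟩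
  have hlog : 0 < Real.log X := Real.log_pos (by
    have h1 : (3 : ℝ) ≤ X := by exact_mod_cast hX3
    linarith)
  have hlogη : 0 < Real.log X ^ η := Real.rpow_pos_of_pos hlog η
  have hup : (Nat.card (clsP P X) : ℝ) ≤ C₀ * X / Real.log X ^ η := by
    have hch : ∀ C : Cls k, ∃ c : kˣ, C ∈ clsP P X →
        (c : Cls k) = C ∧ cond (c : k) ≤ X ∧ P (c : k) := by
      intro C
      by_cases hC : C ∈ clsP P X
      · obtain ⟨c, hc⟩ := hC
        exact ⟨c, fun _ => hc⟩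
      · exact ⟨1, fun h => absurd h hC⟩
    choose r hr using hch
    have hinj : ∀ C ∈ clsP P X, ∀ C' ∈ clsP P X,
        (∃ d : k, (r C : k) = (r C' : k) * d ^ 2) → C = C' := by
      intro C hC C' hC' hd
      rw [← (hr C hC).1, ← (hr C' hC').1]
      exact cls_eq_iff.2 hd
    have h1 := hFn X hX3 ((hfin' X).toFinset.image fun C => (r C : k)) (by
      intro c hc c' hc' hd
      obtain ⟨C, hC, rfl⟩ := Finset.mem_image.1 hc
      obtain ⟨C', hC', rfl⟩ := Finset.mem_image.1 hc'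
      rw [hinj C ((hfin' X).mem_toFinset.1 hC) C' ((hfin' X).mem_toFinset.1 hC') hd]) (by
      intro c hc
      obtain ⟨C, hC, rfl⟩ := Finset.mem_image.1 hc
      exact ⟨(r C).ne_zero, (hr C ((hfin' X).mem_toFinset.1 hC)).2⟩)
    rw [Finset.card_image_of_injOn] at h1
    · have h2 : Nat.card (clsP P X) = (hfin' X).toFinset.card :=
        Nat.card_eq_card_finite_toFinset (hfin' X)
      rw [h2]
      exact h1
    · intro C hC C' hC' h
      exact hinj C ((hfin' X).mem_toFinset.1 hC) C' ((hfin' X).mem_toFinset.1 hC')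
        ⟨1, by rw [one_pow, mul_one]; exact h⟩
  refine hup.trans ?_
  refine div_le_div_of_nonneg_right ?_ hlogη.le
  have h1 := hlow X (by omega)
  calc C₀ * (X : ℝ) = C₀ / δ * (δ * X) := by field_simp
    _ ≤ C₀ / δ * Nat.card (clsLE k X) := mul_le_mul_of_nonneg_left h1 (by positivity)

end Pool.Agent.HG
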