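import Pool.Agent.Helper97.L.PlaceAt
import Pool.Agent.Helper45.L.Defs

/-!
# Project L, block P1: the projective line
-/

set_option autoImplicit false

namespace Pool.Agent.Helper97.L

open Polynomial Pool.Agent.L

theorem sqf_decomp {k : Type} [Field k] (n : ℕ) : ∀ P : k[X], P ≠ 0 → P.natDegree ≤ n →
    ∃ f g : k[X], Squarefree f ∧ g ≠ 0 ∧ P = f * g ^ 2 := by
  induction n with
  | zero =>
    intro P hP hn
    refine ⟨P, 1, ?_, one_ne_zero, by rw [one_pow, mul_one]⟩
    exact (isUnit_iff_degree_eq_zero.2 (by rw [degree_eq_natDegree hP, Nat.le_zero.1 hn]; rfl)).squarefree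
  | succ n ih =>
    intro P hP hn
    by_cases hsq : Squarefree P
    · exact ⟨P, 1, hsq, one_ne_zero, by rw [one_pow, mul_one]⟩
    · unfold Squarefree at hsq
      push Not at hsq
      obtain ⟨a, ⟨Q, hQ⟩, ha⟩ := hsq
      have ha0 : a ≠ 0 := by
        rintro rfl
        rw [zero_mul, zero_mul] at hQ
        exact hP hQ
      have hQ0 : Q ≠ 0 := by
        rintro rfl
        rw [mul_zero] at hQ
        exact hP hQ
      have hda : 0 < a.natDegree := by
        rw [Nat.pos_iff_ne_zero]
        intro h0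
        exact ha (isUnit_iff_degree_eq_zero.2 (by rw [degree_eq_natDegree ha0, h0]; rfl))
      have hdeg : P.natDegree = a.natDegree + a.natDegree + Q.natDegree := by
        rw [hQ, natDegree_mul (mul_ne_zero ha0 ha0) hQ0, natDegree_mul ha0 ha0]
      obtain ⟨f, g, h1, h2, h3⟩ := ih Q hQ0 (by omega)
      refine ⟨f, g * a, h1, mul_ne_zero h2 ha0, ?_⟩
      rw [hQ, h3]
      ring

theorem aeval_mem_sub {k Ω : Type} [Field k] [Field Ω] [Algebra k Ω] (S : Subfield Ω)
    (hk : ∀ c : k, algebraMap k Ω c ∈ S) {y : Ω} (hy : y ∈ S) (p : k[X]) : aeval y p ∈ S := by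
  rw [aeval_eq_sum_range]
  refine sum_mem fun i _ => ?_
  rw [Algebra.smul_def]
  exact mul_mem (hk _) (pow_mem hy _)

theorem p1 : StmtP1 := by
  intro k K0 _ _ _ _ h hG hgen hbr
  obtain ⟨x, hgen⟩ := hgen
  have hx : Transcendental k x := by
    obtain ⟨t, ht, _⟩ := hG.ff
    intro hx
    have h1 : Algebra.IsAlgebraic k (IntermediateField.adjoin k {x}) :=
      IntermediateField.isAlgebraic_adjoin_simple hx.isIntegral
    have h2 : t ∈ IntermediateField.adjoin k {x} := by rw [hgen]; trivial
    have h3 := h1.isAlgebraic ⟨t, h2⟩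
    exact ht (h3.algebraMap (A := K0))
  have hh : h ≠ 0 := by
    rintro rfl
    refine hG.irr 0 ?_ (zero_mem _)
    rw [map_zero, zero_pow two_ne_zero]
  obtain ⟨N, D, hN, hD, hND⟩ := exists_quot' hgen h hh
  obtain ⟨f, g, hf, hg, hfg⟩ := sqf_decomp (N * D).natDegree (N * D) (mul_ne_zero hN hD) le_rfl
  have hf0 : f ≠ 0 := by
    rintro rfl
    rw [zero_mul] at hfg
    exact mul_ne_zero hN hD hfg
  have hinj : ∀ p : k[X], p ≠ 0 → aeval x p ≠ 0 := by
    intro p hp h0
    exact hp ((transcendental_iff.1 hx) p h0)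
  have hDx := hinj D hD
  have hgx := hinj g hg
  obtain ⟨u, hu⟩ : ∃ u : K0, u = aeval x g / aeval x D := ⟨_, rfl⟩
  have hu0 : u ≠ 0 := by
    rw [hu]
    exact div_ne_zero hgx hDx
  have hhu : h = aeval x f * u ^ 2 := by
    have h1 : aeval x N * aeval x D = aeval x f * aeval x g ^ 2 := by
      rw [← map_mul, hfg, map_mul, map_pow]
    rw [hu, hND, div_pow, div_eq_iff hDx]
    field_simp
    linear_combination h1
  have hsep : f.Separable := PerfectField.separable_iff_squarefree.2 hf
  -- branch points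
  have hbad : ∀ t : K0, IntermediateField.adjoin k {t} = ⊤ → Transcendental k t → ∀ (a : k) (i : ℤ) (p : k[X]),
      Odd i → p.eval a ≠ 0 → aeval x f = (t - algebraMap k K0 a) ^ i * aeval t p → False := by
    intro t ht1 ht2 a i p hi hp e
    obtain ⟨P, h1, h2, h3⟩ := place_at ht1 ht2 a
    obtain ⟨z, hz, hz'⟩ := hbr P h1 (fun z hz => by
      refine h3 i p hi hp (z / u) ?_
      rw [← e, map_div₀, div_pow, ← hz, hhu, map_mul, map_pow]
      have : P.valuation u ≠ 0 := (_root_.map_ne_zero _).2 hu0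
      field_simp)
    obtain ⟨c, hc⟩ := h2 z hz
    exact hz' c hc
  have hroot : ∀ a : k, eval a f ≠ 0 := by
    intro a ha
    obtain ⟨f1, hf1⟩ := dvd_iff_isRoot.2 (show IsRoot f a from ha)
    refine hbad x hgen hx a 1 f1 odd_one ?_ ?_
    · intro h1
      obtain ⟨f2, hf2⟩ := dvd_iff_isRoot.2 (show IsRoot f1 a from h1)
      refine not_isUnit_X_sub_C a (hf (X - C a) ⟨f2, ?_⟩)
      conv_lhs => rw [hf1, hf2]
      ring
    · conv_lhs => rw [hf1]
      rw [map_mul, map_sub, aeval_X, aeval_C, zpow_one]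
  have hx0 : x ≠ 0 := by
    rintro rfl
    exact hx isAlgebraic_zero
  have heven : Even f.natDegree := by
    by_contra hodd
    rw [Nat.not_even_iff_odd] at hodd
    refine hbad x⁻¹ ?_ ?_ 0 (-(f.natDegree : ℤ)) f.reverse ?_ ?_ ?_
    · rw [eq_top_iff, ← hgen, IntermediateField.adjoin_simple_le_iff]
      have := inv_mem (IntermediateField.mem_adjoin_simple_self k x⁻¹)
      rwa [inv_inv] at this
    · intro h1
      have := h1.inv
      rw [inv_inv] at this
      exact hx this
    · rw [odd_neg]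
      exact_mod_cast hodd
    · rw [← coeff_zero_eq_eval_zero, coeff_zero_reverse]
      exact leadingCoeff_ne_zero.2 hf0
    · rw [map_zero, sub_zero, zpow_neg, inv_zpow, inv_inv, zpow_natCast]
      let _ := invertibleOfNonzero hx0
      have := eval₂_reverse_mul_pow (algebraMap k K0) x f
      rw [invOf_eq_inv] at this
      rw [aeval_def, aeval_def, ← this, mul_comm]
  have hXr : ∀ α : AlgebraicClosure K0, IsAlgebraic k α → algebraMap K0 (AlgebraicClosure K0) x - α ≠ 0 := by
    intro α hα h0
    rw [sub_eq_zero] at h0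
    rw [← h0] at hα
    exact hx ((isAlgebraic_algebraMap_iff (algebraMap K0 (AlgebraicClosure K0)).injective).1 hα)
  -- the degree is not zero
  have hdeg0 : f.natDegree ≠ 0 := by
    intro h0
    obtain ⟨e, he⟩ : ∃ e : k, f = C e := ⟨_, eq_C_of_natDegree_eq_zero h0⟩
    obtain ⟨s, hs⟩ := IsAlgClosed.exists_pow_nat_eq (algebraMap k (AlgebraicClosure K0) e) (n := 2) (by norm_num)
    have hsa : IsAlgebraic k s := IsAlgebraic.of_pow (n := 2) (by norm_num) (by rw [hs]; exact isAlgebraic_algebraMap e)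
    refine hG.irr (s * algebraMap K0 (AlgebraicClosure K0) u) ?_ ?_
    · rw [mul_pow, hs, hhu, he, aeval_C, map_mul, map_pow, ← IsScalarTower.algebraMap_apply]
    · exact mul_mem (Subfield.subset_closure (Or.inl hsa)) (Subfield.subset_closure (Or.inr ⟨u, rfl⟩))
  -- the degree is not two
  have hdeg2 : f.natDegree ≠ 2 := by
    intro h2
    obtain ⟨a, b, c, hfabc⟩ : ∃ a b c : k, f = C a * X ^ 2 + C b * X + C c :=
      ⟨_, _, _, eq_quadratic_of_degree_le_two (by rw [degree_eq_natDegree hf0, h2]; rfl)⟩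
    have haev : ∀ y : AlgebraicClosure K0, aeval y f =
        algebraMap k _ a * y ^ 2 + algebraMap k _ b * y + algebraMap k _ c := by
      intro y
      rw [hfabc]
      simp
    have hder : ∀ y : AlgebraicClosure K0, aeval y (derivative f) =
        2 * algebraMap k _ a * y + algebraMap k _ b := by
      intro y
      rw [hfabc]
      simp
      ring
    obtain ⟨α, hα⟩ := IsAlgClosed.exists_aeval_eq_zero (AlgebraicClosure K0) f (by
      rw [degree_eq_natDegree hf0, h2]
      norm_num)
    have hαa : IsAlgebraic k α := ⟨f, hf0, hα⟩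
    have hdα := hsep.aeval_derivative_ne_zero hα
    rw [hder] at hdα
    obtain ⟨r, hr⟩ := IsAlgClosed.exists_pow_nat_eq (algebraMap K0 (AlgebraicClosure K0) h) (n := 2) (by norm_num)
    obtain ⟨A, hA⟩ : ∃ A, A = algebraMap k (AlgebraicClosure K0) a := ⟨_, rfl⟩
    obtain ⟨B, hB⟩ : ∃ B, B = algebraMap k (AlgebraicClosure K0) b := ⟨_, rfl⟩
    obtain ⟨Y, hY⟩ : ∃ Y, Y = algebraMap K0 (AlgebraicClosure K0) x := ⟨_, rfl⟩
    obtain ⟨U, hU⟩ : ∃ U, U = algebraMap K0 (AlgebraicClosure K0) u := ⟨_, rfl⟩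
    have hU0 : U ≠ 0 := by
      rw [hU]
      exact (_root_.map_ne_zero _).2 hu0
    have hYα : Y - α ≠ 0 := by
      rw [hY]
      exact hXr α hαa
    have hfY : aeval Y f = (Y - α) * (A * Y + (A * α + B)) := by
      have h1 := haev α
      rw [hα] at h1
      rw [haev Y, hA, hB]
      linear_combination (-1 : AlgebraicClosure K0) * h1
    have hrU : (r / U) ^ 2 = (Y - α) * (A * Y + (A * α + B)) := by
      rw [div_pow, hr, hhu, map_mul, map_pow, ← hU, ← hfY, hY, ← aeval_algebraMap_apply]
      field_simp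
    obtain ⟨z, hz⟩ : ∃ z, z = r / U / (Y - α) := ⟨_, rfl⟩
    have hz2 : z ^ 2 * (Y - α) = A * Y + (A * α + B) := by
      rw [hz, div_pow, hrU]
      field_simp
    have hzA : z ^ 2 - A ≠ 0 := by
      intro h0
      apply hdα
      rw [← hA, ← hB]
      linear_combination (-1 : AlgebraicClosure K0) * hz2 + (Y - α) * h0
    have hYz : Y = (A * α + B + α * z ^ 2) / (z ^ 2 - A) := by
      rw [eq_div_iff hzA]
      linear_combination hz2
    have hrz : r = z * (Y - α) * U := by
      rw [hz]
      field_simp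
    refine hG.nonrat r hr z ?_
    have hcst : ∀ e : k, algebraMap k (AlgebraicClosure K0) e ∈ cst k K0 := fun e => isAlgebraic_algebraMap e
    apply le_antisymm
    · rw [Subfield.closure_le]
      set S := Subfield.closure (cst k K0 ∪ {z}) with hS
      have hzS : z ∈ S := Subfield.subset_closure (Or.inr rfl)
      have hkS : ∀ e : k, algebraMap k (AlgebraicClosure K0) e ∈ S := fun e => Subfield.subset_closure (Or.inl (hcst e))
      have hαS : α ∈ S := Subfield.subset_closure (Or.inl hαa)
      have hAS : A ∈ S := by rw [hA]; exact hkS a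
      have hBS : B ∈ S := by rw [hB]; exact hkS b
      have hYS : Y ∈ S := by
        rw [hYz]
        exact div_mem (add_mem (add_mem (mul_mem hAS hαS) hBS) (mul_mem hαS (pow_mem hzS 2))) (sub_mem (pow_mem hzS 2) hAS)
      have hrange : ∀ y : K0, algebraMap K0 (AlgebraicClosure K0) y ∈ S := by
        intro y
        obtain ⟨p, q, hpq⟩ := exists_quot hgen y
        rw [hpq, map_div₀, ← aeval_algebraMap_apply, ← aeval_algebraMap_apply, ← hY]
        exact div_mem (aeval_mem_sub S hkS hYS p) (aeval_mem_sub S hkS hYS q)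
      rintro y ((hy | ⟨y, rfl⟩) | hy)
      · exact Subfield.subset_closure (Or.inl hy)
      · exact hrange y
      · rw [Set.mem_singleton_iff.1 hy, hrz]
        exact mul_mem (mul_mem hzS (sub_mem hYS hαS)) (by rw [hU]; exact hrange u)
    · rw [Subfield.closure_le]
      set S := Subfield.closure (cst k K0 ∪ Set.range (algebraMap K0 (AlgebraicClosure K0)) ∪ {r}) with hS
      rintro y (hy | hy)
      · exact Subfield.subset_closure (Or.inl (Or.inl hy))
      · rw [Set.mem_singleton_iff.1 hy, hz]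
        refine div_mem (div_mem (Subfield.subset_closure (Or.inr rfl)) ?_) (sub_mem ?_ (Subfield.subset_closure (Or.inl (Or.inl hαa))))
        · rw [hU]
          exact Subfield.subset_closure (Or.inl (Or.inr ⟨u, rfl⟩))
        · rw [hY]
          exact Subfield.subset_closure (Or.inl (Or.inr ⟨x, rfl⟩))
  refine ⟨f, hsep, heven, ?_, hroot, ?_⟩
  · obtain ⟨m, hm⟩ := heven
    omega
  · rintro c ⟨K, _, _, _, _, y, hy, hs⟩
    refine ⟨K, inferInstance, inferInstance, algebraMap K0 K x, y / algebraMap K0 K u, ?_, ?_, hs⟩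
    · intro h1
      exact hx ((isAlgebraic_algebraMap_iff (algebraMap K0 K).injective).1 h1)
    · have h1 : algebraMap K0 K u ≠ 0 := (_root_.map_ne_zero _).2 hu0
      rw [aeval_algebraMap_apply, div_pow, hy, hhu, map_mul, map_pow]
      field_simp

end Pool.Agent.Helper97.L
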