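import Mathlib

/-!
# Project L, block P1: the place `t = a` of the field `k(t)`
-/

set_option autoImplicit false

namespace Pool.Agent.Helper97.L

open Polynomial IsDedekindDomain

section

variable {k K0 : Type} [Field k] [Field K0] [Algebra k K0]

theorem exists_quot {t : K0} (hgen : IntermediateField.adjoin k {t} = ⊤) (z : K0) :
    ∃ p q : k[X], z = aeval t p / aeval t q :=
  (IntermediateField.mem_adjoin_simple_iff k z).1 (by rw [hgen]; trivial)

theorem exists_quot' {t : K0} (hgen : IntermediateField.adjoin k {t} = ⊤) (z : K0) (hz : z ≠ 0) :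
    ∃ p q : k[X], p ≠ 0 ∧ q ≠ 0 ∧ z = aeval t p / aeval t q := by
  obtain ⟨p, q, h⟩ := exists_quot hgen z
  refine ⟨p, q, ?_, ?_, h⟩
  · rintro rfl
    rw [map_zero, zero_div] at h
    exact hz h
  · rintro rfl
    rw [map_zero, div_zero] at h
    exact hz h

/-- the place `t = a` -/
theorem place_at {t : K0} (hgen : IntermediateField.adjoin k {t} = ⊤) (ht : Transcendental k t) (a : k) :
    ∃ P : ValuationSubring K0, (∀ c : k, algebraMap k K0 c ∈ P) ∧
      (∀ z ∈ P, ∃ c : k, z - algebraMap k K0 c ∈ P.nonunits) ∧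
      ∀ (i : ℤ) (p : k[X]), Odd i → p.eval a ≠ 0 → ∀ z : K0,
        P.valuation ((t - algebraMap k K0 a) ^ i * aeval t p) ≠ P.valuation z ^ 2 := by
  classical
  have hinj : Function.Injective (aeval t : k[X] →ₐ[k] K0) := transcendental_iff_injective.1 ht
  let _ : Algebra k[X] K0 := (aeval t : k[X] →ₐ[k] K0).toRingHom.toAlgebra
  have hmap : ∀ p : k[X], algebraMap k[X] K0 p = aeval t p := fun _ => rfl
  have : FaithfulSMul k[X] K0 := (faithfulSMul_iff_algebraMap_injective _ _).2 hinj
  have : IsFractionRing k[X] K0 := by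
    refine IsFractionRing.of_field k[X] K0 ?_
    intro z
    obtain ⟨p, q, h⟩ := exists_quot hgen z
    exact ⟨p, q, h⟩
  have hXa : (X - C a : k[X]) ≠ 0 := X_sub_C_ne_zero a
  have hprime : Prime (X - C a : k[X]) := prime_X_sub_C a
  let v : HeightOneSpectrum k[X] :=
    ⟨Ideal.span {X - C a}, (Ideal.span_singleton_prime hXa).2 hprime, by
      rw [Ne, Ideal.span_singleton_eq_bot]
      exact hXa⟩
  let w := v.valuation K0
  have hw1 : ∀ p : k[X], p.eval a ≠ 0 → w (aeval t p) = 1 := by
    intro p hp
    have h1 : v.valuation K0 (algebraMap k[X] K0 p) = 1 := by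
      refine le_antisymm (v.valuation_le_one p) ?_
      by_contra hlt
      rw [not_le] at hlt
      have h2 := (v.valuation_lt_one_iff_mem p).1 hlt
      rw [show v.asIdeal = Ideal.span {X - C a} from rfl, Ideal.mem_span_singleton, dvd_iff_isRoot] at h2
      exact hp h2
    exact h1
  have hwt : w (t - algebraMap k K0 a) = WithZero.exp (-1 : ℤ) := by
    have h1 : algebraMap k[X] K0 (X - C a) = t - algebraMap k K0 a := by
      rw [hmap, map_sub, aeval_X, aeval_C]
    rw [← h1]
    change v.valuation K0 _ = _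
    rw [v.valuation_of_algebraMap]
    exact v.intValuation_singleton hXa rfl
  have hta : t - algebraMap k K0 a ≠ 0 := by
    intro h
    rw [h, map_zero] at hwt
    exact WithZero.exp_ne_zero hwt.symm
  -- the form of an element
  have hform : ∀ z : K0, z ≠ 0 → ∃ (i : ℤ) (p q : k[X]), p.eval a ≠ 0 ∧ q.eval a ≠ 0 ∧
      z = (t - algebraMap k K0 a) ^ i * (aeval t p / aeval t q) := by
    intro z hz
    obtain ⟨p, q, hp, hq, h⟩ := exists_quot' hgen z hz
    obtain ⟨p', hp1, hp2⟩ := exists_eq_pow_rootMultiplicity_mul_and_not_dvd p hp a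
    obtain ⟨q', hq1, hq2⟩ := exists_eq_pow_rootMultiplicity_mul_and_not_dvd q hq a
    rw [dvd_iff_isRoot] at hp2 hq2
    refine ⟨(p.rootMultiplicity a : ℤ) - q.rootMultiplicity a, p', q', hp2, hq2, ?_⟩
    have e1 : aeval t p = (t - algebraMap k K0 a) ^ (p.rootMultiplicity a) * aeval t p' := by
      conv_lhs => rw [hp1]
      rw [map_mul, map_pow, map_sub, aeval_X, aeval_C]
    have e2 : aeval t q = (t - algebraMap k K0 a) ^ (q.rootMultiplicity a) * aeval t q' := by
      conv_lhs => rw [hq1]
      rw [map_mul, map_pow, map_sub, aeval_X, aeval_C]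
    rw [h, e1, e2, zpow_sub₀ hta, zpow_natCast, zpow_natCast]
    field_simp
  have hwf : ∀ (i : ℤ) (p q : k[X]), p.eval a ≠ 0 → q.eval a ≠ 0 →
      w ((t - algebraMap k K0 a) ^ i * (aeval t p / aeval t q)) = WithZero.exp (-i) := by
    intro i p q hp hq
    rw [map_mul, map_zpow₀, map_div₀, hw1 p hp, hw1 q hq, hwt, div_one, mul_one, ← WithZero.exp_zsmul]
    congr 1
    simp
  refine ⟨w.valuationSubring, ?_, ?_, ?_⟩
  · intro c
    rw [Valuation.mem_valuationSubring_iff]
    have h1 : algebraMap k K0 c = aeval t (C c) := by rw [aeval_C]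
    rw [h1]
    exact v.valuation_le_one (C c)
  · intro z hz
    rw [Valuation.mem_valuationSubring_iff] at hz
    have hnon : ∀ y : K0, y ∈ w.valuationSubring.nonunits ↔ w y < 1 := by
      intro y
      rw [ValuationSubring.mem_nonunits_iff]
      exact (Valuation.isEquiv_valuation_valuationSubring w).lt_one_iff_lt_one.symm
    by_cases hz0 : z = 0
    · refine ⟨0, ?_⟩
      rw [hnon, hz0, map_zero, sub_zero, map_zero]
      exact zero_lt_one
    obtain ⟨i, p, q, hp, hq, h⟩ := hform z hz0
    rw [h, hwf i p q hp hq, ← WithZero.exp_zero, WithZero.exp_le_exp] at hz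
    have hqt : aeval t q ≠ 0 := by
      intro h0
      have := hw1 q hq
      rw [h0, map_zero] at this
      exact zero_ne_one this
    rcases (by omega : i = 0 ∨ 0 < i) with hi | hi
    · refine ⟨p.eval a / q.eval a, ?_⟩
      rw [hnon]
      have e : z - algebraMap k K0 (p.eval a / q.eval a) =
          aeval t (C (q.eval a) * p - C (p.eval a) * q) / (aeval t q * algebraMap k K0 (q.eval a)) := by
        have hqa : algebraMap k K0 (q.eval a) ≠ 0 := (_root_.map_ne_zero _).2 hq
        rw [h, hi, zpow_zero, one_mul, map_div₀, map_sub, map_mul, map_mul, aeval_C, aeval_C]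
        field_simp
      rw [e, map_div₀, map_mul, hw1 q hq, one_mul]
      have e2 : w (algebraMap k K0 (q.eval a)) = 1 := by
        have := hw1 (C (q.eval a)) (by rwa [eval_C])
        rwa [aeval_C] at this
      rw [e2, div_one]
      refine (v.valuation_lt_one_iff_mem _).2 ?_
      rw [show v.asIdeal = Ideal.span {X - C a} from rfl, Ideal.mem_span_singleton, dvd_iff_isRoot, IsRoot.def]
      simp only [eval_sub, eval_mul, eval_C]
      exact sub_eq_zero.2 (mul_comm _ _)
    · refine ⟨0, ?_⟩
      rw [hnon, map_zero, sub_zero, h, hwf i p q hp hq, ← WithZero.exp_zero, WithZero.exp_lt_exp]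
      omega
  · intro i p hi hp z hz
    rw [← map_pow] at hz
    have heq : w ((t - algebraMap k K0 a) ^ i * aeval t p) = w (z ^ 2) :=
      (Valuation.isEquiv_valuation_valuationSubring w).eq_iff.2 hz
    have h1 := hwf i p 1 hp (by rw [eval_one]; exact one_ne_zero)
    rw [map_one, div_one] at h1
    rw [h1] at heq
    have hz0 : z ≠ 0 := by
      rintro rfl
      rw [zero_pow two_ne_zero, map_zero] at heq
      exact WithZero.exp_ne_zero heq
    obtain ⟨j, p', q', hp', hq', h⟩ := hform z hz0
    rw [h, map_pow, hwf j p' q' hp' hq', ← WithZero.exp_nsmul] at heq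
    have h3 := WithZero.exp_injective heq
    obtain ⟨m, hm⟩ := hi
    rw [nsmul_eq_mul] at h3
    push_cast at h3
    omega

end

end Pool.Agent.Helper97.L
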